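import Pool.Agent.H29.RT.Targets
import Pool.Agent.H69.DP.DN2

/-!
# The mean for an Artin representation with rational character (MNA)
-/

set_option autoImplicit false

open Complex Filter Topology Set

namespace Pool.Agent.H69.RT

open Pool.Agent.H29.RT Pool.Agent.H25.DP Pool.Agent.H25.DL Pool.Agent.H25.MZ
open Pool.Agent.H25 (HK.pc HK.spf HK.FF)

/-- bounded on the primes -/
def Bd (w : ℕ → ℝ) : Prop := ∃ C : ℝ, ∀ p : Nat.Primes, |w p| ≤ C

theorem rp_summable (s : ℕ) (hs : 1 ≤ s) (L : ℝ) (hL : 0 < L) :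
    Summable (fun p : Nat.Primes => ((p : ℕ) : ℝ) ^ (-(1 + s / L) : ℝ)) := by
  rw [Nat.Primes.summable_rpow]
  have h1 : (0 : ℝ) < s := by exact_mod_cast hs
  have h2 : 0 < (s : ℝ) / L := div_pos h1 hL
  linarith

theorem dif_summable (s : ℕ) (hs : 1 ≤ s) (L : ℝ) (hL : 0 < L) (w : ℕ → ℝ) (hw : Bd w) :
    Summable (fun p : Nat.Primes => w p * (((p : ℕ) : ℝ) ^ (-(1 + s / L) : ℝ) -
      ((p : ℕ) : ℝ) ^ (-(1 + 1 / L) : ℝ))) := by
  obtain ⟨C, hC⟩ := hw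
  have h1 := rp_summable s hs L hL
  have h2 := rp_summable 1 le_rfl L hL
  simp only [Nat.cast_one] at h2
  refine Summable.of_norm_bounded ((h1.add h2).mul_left C) ?_
  intro p
  have hp1 : 0 ≤ ((p : ℕ) : ℝ) ^ (-(1 + s / L) : ℝ) := Real.rpow_nonneg (Nat.cast_nonneg _) _
  have hp2 : 0 ≤ ((p : ℕ) : ℝ) ^ (-(1 + 1 / L) : ℝ) := Real.rpow_nonneg (Nat.cast_nonneg _) _
  rw [norm_mul, Real.norm_eq_abs, Real.norm_eq_abs]
  refine mul_le_mul (hC p) ?_ (abs_nonneg _) ((abs_nonneg _).trans (hC p))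
  rw [abs_le]
  constructor <;> linarith

/-- means are linear -/
theorem mean_sum {ι : Type} (S : Finset ι) (c : ι → ℝ) (w : ι → ℕ → ℝ) (α : ι → ℝ)
    (hb : ∀ i ∈ S, Bd (w i)) (hm : ∀ i ∈ S, Mean (w i) (α i)) :
    Mean (fun p => ∑ i ∈ S, c i * w i p) (∑ i ∈ S, c i * α i) := by
  intro s hs
  have h1 : Tendsto (fun L : ℝ => ∑ i ∈ S, c i * ∑' p : Nat.Primes,
      w i p * (((p : ℕ) : ℝ) ^ (-(1 + s / L) : ℝ) - ((p : ℕ) : ℝ) ^ (-(1 + 1 / L) : ℝ))) atTop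
      (𝓝 (∑ i ∈ S, c i * (-(α i * Real.log s)))) :=
    tendsto_finsetSum _ fun i hi => (hm i hi s hs).const_mul _
  have h2 : (∑ i ∈ S, c i * (-(α i * Real.log s))) = -((∑ i ∈ S, c i * α i) * Real.log s) := by
    rw [Finset.sum_mul, ← Finset.sum_neg_distrib]
    exact Finset.sum_congr rfl fun i _ => by ring
  rw [h2] at h1
  refine h1.congr' ?_
  filter_upwards [eventually_gt_atTop 0] with L hL
  have h3 : ∀ i ∈ S, c i * (∑' p : Nat.Primes,
      w i p * (((p : ℕ) : ℝ) ^ (-(1 + s / L) : ℝ) - ((p : ℕ) : ℝ) ^ (-(1 + 1 / L) : ℝ))) =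
      ∑' p : Nat.Primes, c i * (w i p * (((p : ℕ) : ℝ) ^ (-(1 + s / L) : ℝ) -
        ((p : ℕ) : ℝ) ^ (-(1 + 1 / L) : ℝ))) := fun i _ => (tsum_mul_left).symm
  rw [Finset.sum_congr rfl h3, ← Summable.tsum_finsetSum]
  · refine tsum_congr fun p => ?_
    rw [Finset.sum_mul]
    exact Finset.sum_congr rfl fun i _ => by ring
  · intro i hi
    exact (dif_summable s hs L hL (w i) (hb i hi)).mul_left _

/-- finitely many primes do not matter -/
theorem mean_congr (w v : ℕ → ℝ) (α : ℝ) (F : Set Nat.Primes) (hF : F.Finite) (hb : Bd w)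
    (hv : Bd v) (h : ∀ p : Nat.Primes, p ∉ F → w p = v p) (hm : Mean w α) : Mean v α := by
  classical
  intro s hs
  have h1 : Tendsto (fun L : ℝ => ∑ p ∈ hF.toFinset, (v p - w p) *
      (((p : ℕ) : ℝ) ^ (-(1 + s / L) : ℝ) - ((p : ℕ) : ℝ) ^ (-(1 + 1 / L) : ℝ))) atTop
      (𝓝 (∑ p ∈ hF.toFinset, (v p - w p) * 0)) := by
    refine tendsto_finsetSum _ fun p _ => Tendsto.const_mul _ ?_
    have hp : ((p : ℕ) : ℝ) ≠ 0 := by exact_mod_cast p.2.ne_zero
    have h2 : ∀ c : ℝ, Tendsto (fun L : ℝ => ((p : ℕ) : ℝ) ^ (-(1 + c / L) : ℝ)) atTop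
        (𝓝 (((p : ℕ) : ℝ) ^ (-(1 + 0) : ℝ))) := by
      intro c
      refine Tendsto.rpow tendsto_const_nhds ?_ (Or.inl hp)
      exact ((tendsto_const_nhds.add (tendsto_const_nhds.div_atTop tendsto_id))).neg
    have h3 := (h2 s).sub (h2 1)
    rw [sub_self] at h3
    exact h3
  simp only [mul_zero, Finset.sum_const_zero] at h1
  have h2 := (hm s hs).add h1
  rw [add_zero] at h2
  refine h2.congr' ?_
  filter_upwards [eventually_gt_atTop 0] with L hL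
  have h3 := dif_summable s hs L hL w hb
  have h4 := dif_summable s hs L hL v hv
  have h5 : (∑' p : Nat.Primes, v p * (((p : ℕ) : ℝ) ^ (-(1 + s / L) : ℝ) -
      ((p : ℕ) : ℝ) ^ (-(1 + 1 / L) : ℝ))) - (∑' p : Nat.Primes, w p *
      (((p : ℕ) : ℝ) ^ (-(1 + s / L) : ℝ) - ((p : ℕ) : ℝ) ^ (-(1 + 1 / L) : ℝ))) =
      ∑ p ∈ hF.toFinset, (v p - w p) *
      (((p : ℕ) : ℝ) ^ (-(1 + s / L) : ℝ) - ((p : ℕ) : ℝ) ^ (-(1 + 1 / L) : ℝ)) := by
    rw [← h4.tsum_sub h3, tsum_eq_sum (s := hF.toFinset)]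
    · exact Finset.sum_congr rfl fun p _ => by ring
    · intro p hp
      have hp' : p ∉ F := fun h' => hp (hF.mem_toFinset.2 h')
      rw [h p hp']
      ring
  linarith

/-- the average of the permutation character of `G / H` -/
theorem pc_avg {G : Type} [Group G] [Fintype G] (H : Subgroup G) :
    ∑ g : G, HK.pc H g = Nat.card G := by
  classical
  have h1 := MulAction.sum_card_fixedBy_eq_card_orbits_mul_card_group G (G ⧸ H)
  have h2 : Fintype.card (Quotient (MulAction.orbitRel G (G ⧸ H))) = 1 := by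
    rw [Fintype.card_eq_one_iff_nonempty_unique]
    have h3 : Subsingleton (Quotient (MulAction.orbitRel G (G ⧸ H))) :=
      (MulAction.pretransitive_iff_subsingleton_quotient G (G ⧸ H)).1 inferInstance
    exact ⟨⟨⟨Quotient.mk _ (((1 : G) : G ⧸ H))⟩, fun a => Subsingleton.elim _ _⟩⟩
  rw [h2, one_mul] at h1
  rw [Nat.card_eq_fintype_card, ← h1]
  refine Finset.sum_congr rfl fun g _ => ?_
  unfold Pool.Agent.H25.HK.pc
  rw [← Nat.card_eq_fintype_card]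
  rfl

theorem pc_le {G : Type} [Group G] [Finite G] (H : Subgroup G) (g : G) :
    HK.pc H g ≤ Nat.card (G ⧸ H) := by
  unfold Pool.Agent.H25.HK.pc
  exact Finite.card_subtype_le _

/-- a sum over the trivial group -/
theorem sum_bot {G : Type} [Group G] (I : Subgroup G) (hI : I = ⊥) (f : G → ℂ) :
    (Nat.card I : ℂ)⁻¹ * ∑ᶠ g : I, f (g : G) = f 1 := by
  subst hI
  have hdef : ((default : (⊥ : Subgroup G)) : G) = 1 :=
    Subgroup.mem_bot.1 (default : (⊥ : Subgroup G)).2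
  rw [finsum_eq_sum_of_fintype, Fintype.sum_unique, hdef]
  simp

theorem spf_unram (h2 : Pool.Agent.H25.HK.T_PE) (R : ArtinRep)
    (H : Subgroup (R.K ≃ₐ[ℚ] R.K)) (p : Nat.Primes) (hp : R.In p = ⊥) :
    HK.spf (HK.FF R H) p 1 = HK.pc H (R.Fr p) := by
  have h3 := h2 R H p 1 le_rfl
  have h4 := sum_bot (R.In p) hp (fun g => (HK.pc H (R.Fr p ^ 1 * g) : ℂ))
  rw [h4, mul_one, pow_one] at h3
  exact_mod_cast h3

theorem fr_unram (h3 : Pool.Agent.H25.HK.T_TR) (R : ArtinRep) (p : Nat.Primes)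
    (hp : R.In p = ⊥) :
    LinearMap.trace ℂ R.V (R.fr p) = LinearMap.trace ℂ R.V (R.rho (R.Fr p)) := by
  have h4 := h3 R p 1 le_rfl
  have h5 := sum_bot (R.In p) hp (fun g => LinearMap.trace ℂ R.V (R.rho (R.Fr p ^ 1 * g)))
  rw [h5, mul_one, pow_one, pow_one] at h4
  exact h4

/-- a function on the primes that is bounded outside a finite set is bounded -/
theorem bd_of (w : ℕ → ℝ) (F : Set Nat.Primes) (hF : F.Finite) (C : ℝ)
    (h : ∀ p : Nat.Primes, p ∉ F → |w p| ≤ C) : Bd w := by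
  classical
  have hC : 0 ≤ |C| := abs_nonneg _
  refine ⟨|C| + ∑ p ∈ hF.toFinset, |w p|, fun p => ?_⟩
  by_cases hp : p ∈ F
  · have h1 := Finset.single_le_sum (f := fun p : Nat.Primes => |w p|) (fun q _ => abs_nonneg _)
      (hF.mem_toFinset.2 hp)
    have h2 : |w p| ≤ ∑ q ∈ hF.toFinset, |w q| := h1
    linarith
  · have h1 := h p hp
    have h2 : 0 ≤ ∑ p ∈ hF.toFinset, |w p| := Finset.sum_nonneg fun q _ => abs_nonneg _
    have h3 := le_abs_self C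
    linarith

/-- the square of a rational character -/
theorem sq_char (h1 : Pool.Agent.H25.HK.T_AI) (R : ArtinRep) (hR : Pool.Agent.H25.HK.Rat R) :
    ∃ (N : ℕ) (s : Finset (Subgroup (R.K ≃ₐ[ℚ] R.K))) (a : Subgroup (R.K ≃ₐ[ℚ] R.K) → ℤ),
      1 ≤ N ∧ ∀ g, (N : ℝ) * ‖LinearMap.trace ℂ R.V (R.rho g)‖ ^ 2 =
        ∑ H ∈ s, (a H : ℝ) * (HK.pc H g : ℝ) := by
  have htr : ∀ g, LinearMap.trace ℂ (TensorProduct ℂ R.V R.V) (R.rho.tprod R.rho g) =
      LinearMap.trace ℂ R.V (R.rho g) * LinearMap.trace ℂ R.V (R.rho g) := by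
    intro g
    rw [Representation.tprod_apply, LinearMap.trace_tensorProduct']
  obtain ⟨N, s, a, hN, h⟩ := h1 (R.K ≃ₐ[ℚ] R.K) (TensorProduct ℂ R.V R.V)
    (R.rho.tprod R.rho) (fun g => by
      obtain ⟨q, hq⟩ := hR g
      refine ⟨q * q, ?_⟩
      rw [htr, hq]
      push_cast
      ring)
  refine ⟨N, s, a, hN, fun g => ?_⟩
  have h2 := h g
  rw [htr] at h2
  obtain ⟨q, hq⟩ := hR g
  rw [hq] at h2 ⊢
  have h3 : ‖((q : ℚ) : ℂ)‖ ^ 2 = (q : ℝ) * q := by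
    have h4 : ((q : ℚ) : ℂ) = (((q : ℝ)) : ℂ) := by push_cast; rfl
    rw [h4, Complex.norm_real, Real.norm_eq_abs, sq_abs, sq]
  rw [h3]
  have h5 : (((N : ℝ) * ((q : ℝ) * q) : ℝ) : ℂ) =
      ((∑ H ∈ s, (a H : ℝ) * (HK.pc H g : ℝ) : ℝ) : ℂ) := by
    push_cast
    exact h2
  exact_mod_cast h5

theorem pf_MNA (h : T_DZR) (h1 : Pool.Agent.H25.HK.T_AI) (h2 : Pool.Agent.H25.HK.T_PE)
    (h3 : Pool.Agent.H25.HK.T_TR) : T_MNA := by
  classical
  intro R m w hm hR hw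
  obtain ⟨N, S, a, hN, hch⟩ := sq_char h1 R hR
  have hNr : (N : ℝ) ≠ 0 := by
    have : 0 < N := hN
    exact_mod_cast this.ne'
  have hmr : (m : ℝ) ≠ 0 := by
    have : 0 < m := hm
    exact_mod_cast this.ne'
  have hram := Pool.Agent.H69.DP.ram_finite R
  -- the mean of the character
  have hip : (N : ℝ) * ip R = ∑ H ∈ S, (a H : ℝ) := by
    haveI : Fintype (R.K ≃ₐ[ℚ] R.K) := Fintype.ofFinite _
    have hG : (Nat.card (R.K ≃ₐ[ℚ] R.K) : ℝ) ≠ 0 := by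
      have : 0 < Nat.card (R.K ≃ₐ[ℚ] R.K) := Nat.card_pos
      exact_mod_cast this.ne'
    unfold ip
    rw [finsum_eq_sum_of_fintype, mul_div_assoc', div_eq_iff hG, Finset.mul_sum]
    rw [Finset.sum_congr rfl fun g _ => hch g, Finset.sum_comm, Finset.sum_mul]
    refine Finset.sum_congr rfl fun H _ => ?_
    rw [← Finset.mul_sum]
    congr 1
    have h4 := pc_avg H
    exact_mod_cast h4
  -- the functions
  have hbs : ∀ H ∈ S, Bd (fun p => (HK.spf (HK.FF R H) p 1 : ℝ)) := by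
    intro H _
    refine bd_of _ _ hram (Nat.card ((R.K ≃ₐ[ℚ] R.K) ⧸ H) : ℝ) ?_
    intro p hp
    have hp' : R.In p = ⊥ := by
      by_contra hc
      exact hp hc
    rw [spf_unram h2 R H p hp', Nat.abs_cast]
    exact_mod_cast pc_le H (R.Fr p)
  have hms : ∀ H ∈ S, Mean (fun p => (HK.spf (HK.FF R H) p 1 : ℝ)) 1 := fun H _ => h (HK.FF R H)
  have hsum := mean_sum S (fun H => (a H : ℝ) / (N * m ^ 2))
    (fun H p => (HK.spf (HK.FF R H) p 1 : ℝ)) (fun _ => 1) hbs hms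
  have hval : (∑ H ∈ S, (a H : ℝ) / (N * m ^ 2) * 1) = ip R / m ^ 2 := by
    simp only [mul_one]
    rw [← Finset.sum_div, ← hip]
    field_simp
  rw [hval] at hsum
  have hbsum : Bd (fun p => ∑ H ∈ S, (a H : ℝ) / (N * m ^ 2) *
      (HK.spf (HK.FF R H) p 1 : ℝ)) := by
    choose! C hC using hbs
    refine ⟨∑ H ∈ S, |(a H : ℝ) / (N * m ^ 2)| * C H, fun p => ?_⟩
    refine (Finset.abs_sum_le_sum_abs _ _).trans (Finset.sum_le_sum fun H hH => ?_)
    rw [abs_mul]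
    exact mul_le_mul_of_nonneg_left (hC H hH p) (abs_nonneg _)
  have heq : ∀ p : Nat.Primes, p ∉ {p : Nat.Primes | R.In p ≠ ⊥} →
      (∑ H ∈ S, (a H : ℝ) / (N * m ^ 2) * (HK.spf (HK.FF R H) p 1 : ℝ)) = w p := by
    intro p hp
    have hp' : R.In p = ⊥ := by
      by_contra hc
      exact hp hc
    rw [hw p, fr_unram h3 R p hp', norm_div, div_pow]
    have h4 : ‖(m : ℂ)‖ ^ 2 = (m : ℝ) ^ 2 := by rw [Complex.norm_natCast]
    rw [h4, eq_div_iff (pow_ne_zero 2 hmr)]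
    have h5 := hch (R.Fr p)
    have h6 : ‖LinearMap.trace ℂ R.V (R.rho (R.Fr p))‖ ^ 2 =
        (∑ H ∈ S, (a H : ℝ) * (HK.pc H (R.Fr p) : ℝ)) / N := by
      rw [← h5]
      field_simp
    rw [h6, Finset.sum_mul, Finset.sum_div]
    refine Finset.sum_congr rfl fun H _ => ?_
    rw [spf_unram h2 R H p hp']
    field_simp
  have hbw : Bd w := by
    obtain ⟨C, hC⟩ := hbsum
    refine bd_of w _ hram C fun p hp => ?_
    rw [← heq p hp]
    exact hC p
  exact mean_congr _ w _ _ hram hbsum hbw heq hsum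

end Pool.Agent.H69.RT
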